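import Pool.Agent.R942.WS.Defs

/-!
# Characters of multiplicity at least two, and the number of wrong eigenvalues: definitions
-/

set_option autoImplicit false

namespace Pool.Agent.R942.WB

open Module Pool.Agent.Y143 Pool.Agent.R942.WS

universe u v

variable {Ω : Type u} [Field Ω] [CharZero Ω] {Γ : Type} {n q : ℕ}

/-- The character `χ` has multiplicity at most one in the primitive part of `E_1^(i, w)`, or it is a
Tate character in the weight `w = 2` and the Tate conjecture for divisors holds for `Y^(i)`. -/
def MultOne {X : SpecialFibre.{u, v} Ω Γ n q} (A : DivisorClasses X) (i w : ℕ) (χ : Γ → Ω) :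
    Prop :=
  finrank Ω (X.primPart i w χ) ≤ 1 ∨
    (w = 2 ∧ IsTateNumber q (χ X.frob) ∧ A.TateConj (i - 1))

/-- The character `χ` violates the condition `MultOne` at one of the places `(i', w)` with
`1 ≤ i' ≤ i`. -/
def IsBad {X : SpecialFibre.{u, v} Ω Γ n q} (A : DivisorClasses X) (i w : ℕ) (χ : Γ → Ω) : Prop :=
  ∃ i', 1 ≤ i' ∧ i' ≤ i ∧ ¬ MultOne A i' w χ

/-- The sum of the parts of the primitive part of `E_1^(i, w)` for the bad characters. -/
noncomputable def badPart {X : SpecialFibre.{u, v} Ω Γ n q} (A : DivisorClasses X) (i w : ℕ) :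
    Submodule Ω X.C :=
  ⨆ χ ∈ {χ : Γ → Ω | IsBad A i w χ}, X.primPart i w χ

section Space

variable {V : Type v} [AddCommGroup V] [Module Ω V]

/-- The sum of the generalized eigenspaces of `F` for the eigenvalues which are not `q`-Weil numbers
of weight `w`. -/
noncomputable def wrongSpace (q : ℕ) (F : Module.End Ω V) (w : ℤ) : Submodule Ω V :=
  ⨆ α ∈ {α : Ω | ¬ IsWeilNumber q w α}, F.maxGenEigenspace α

/-- The number of eigenvalues (with multiplicities) of `F` on the graded piece `M_j / M_(j - 1)` of a
filtration `M` by `F`-stable subspaces which are not `q`-Weil numbers of weight `w`. -/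
noncomputable def wrongNumber (q : ℕ) (F : Module.End Ω V) (M : ℤ → Submodule Ω V) (j w : ℤ) : ℤ :=
  finrank Ω (M j ⊓ wrongSpace q F w : Submodule Ω V) -
    finrank Ω (M (j - 1) ⊓ wrongSpace q F w : Submodule Ω V)

end Space

/-- The dimension of the bad part. -/
noncomputable def badDim {X : SpecialFibre.{u, v} Ω Γ n q} (A : DivisorClasses X) (i w : ℕ) : ℕ :=
  finrank Ω (badPart A i w)

/-- At most `K` eigenvalues of the Frobenius on the graded piece `gr^M_j` of the monodromy filtration
of `H^m` are not `q`-Weil numbers of weight `m + j`. -/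
def WrongAtMost (X : SemistableModel.{u, v} Ω Γ n q) (m : ℕ) (j : ℤ) (K : ℕ) : Prop :=
  ∀ M, IsMonodromyFiltration (X.N m) M →
    wrongNumber q (X.actV m X.frob) M j ((m : ℤ) + j) ≤ K

end Pool.Agent.R942.WB
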