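import Pool.Agent.R942.WB.Core
import Pool.Agent.R942.WB.Defs
import Pool.Agent.R942.WM.Final

/-!
# The number of wrong eigenvalues on the first open graded pieces
-/

set_option autoImplicit false

namespace Pool.Agent.R942.WB

open Module Submodule Pool.Agent.Y143 Pool.Agent.R942.WM

universe u v

section Linear

variable {Ω : Type*} [Field Ω] {V : Type*} [AddCommGroup V] [Module Ω V] [FiniteDimensional Ω V]

/-- Intersecting with a subspace decreases the codimension. -/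
lemma finrank_inf_sub {A B : Submodule Ω V} (hAB : A ≤ B) (U : Submodule Ω V) :
    (finrank Ω (B ⊓ U : Submodule Ω V) : ℤ) - finrank Ω (A ⊓ U : Submodule Ω V) ≤
      finrank Ω B - finrank Ω A := by
  have h1 := Submodule.finrank_sup_add_finrank_inf_eq (B ⊓ U) A
  have h2 : (B ⊓ U) ⊓ A = A ⊓ U := by
    ext x
    constructor
    · rintro ⟨⟨_, h3⟩, h4⟩
      exact ⟨h4, h3⟩
    · rintro ⟨h3, h4⟩
      exact ⟨⟨hAB h3, h4⟩, h3⟩
  have h3 : (B ⊓ U) ⊔ A ≤ B := sup_le inf_le_left hAB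
  have h4 := Submodule.finrank_mono h3
  rw [h2] at h1
  omega

lemma finrank_map_mkQ {p0 p : Submodule Ω V} (h : p0 ≤ p) :
    finrank Ω (p.map p0.mkQ) + finrank Ω p0 = finrank Ω p := by
  have h1 := finrank_map_add_ker p0.mkQ p
  rwa [Submodule.ker_mkQ, inf_eq_right.2 h] at h1

/-- The dimensions of two subquotients which are related. -/
lemma finrank_rel {C : Type*} [AddCommGroup C] [Module Ω C] [FiniteDimensional Ω C]
    (S : Submodule Ω (V × C)) {p0 p : Submodule Ω V} {z0 z : Submodule Ω C} (hp : p0 ≤ p)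
    (hz : z0 ≤ z) (h1 : ∀ v ∈ p, ∃ x ∈ z, (v, x) ∈ S)
    (h2 : ∀ v x, v ∈ p → x ∈ z → (v, x) ∈ S → x ∈ z0 → v ∈ p0) :
    (finrank Ω p : ℤ) - finrank Ω p0 ≤ finrank Ω z - finrank Ω z0 := by
  let T : Submodule Ω (V × C) := S ⊓ p.prod z
  let f1 : (V × C) →ₗ[Ω] (V ⧸ p0) := p0.mkQ ∘ₗ LinearMap.fst Ω V C
  let f2 : (V × C) →ₗ[Ω] (C ⧸ z0) := z0.mkQ ∘ₗ LinearMap.snd Ω V C
  have e1 := finrank_map_add_ker f1 T
  have e2 := finrank_map_add_ker f2 T
  have e3 : T.map f1 = p.map p0.mkQ := by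
    apply le_antisymm
    · rintro _ ⟨⟨v, x⟩, hv, rfl⟩
      exact ⟨v, hv.2.1, rfl⟩
    · rintro _ ⟨v, hv, rfl⟩
      obtain ⟨x, hx, hvx⟩ := h1 v hv
      exact ⟨(v, x), ⟨hvx, hv, hx⟩, rfl⟩
  have e4 : T.map f2 ≤ z.map z0.mkQ := by
    rintro _ ⟨⟨v, x⟩, hv, rfl⟩
    exact ⟨x, hv.2.2, rfl⟩
  have e5 : T ⊓ LinearMap.ker f2 ≤ T ⊓ LinearMap.ker f1 := by
    rintro ⟨v, x⟩ ⟨hv, hx⟩
    refine ⟨hv, ?_⟩
    have hx' : x ∈ z0 := by
      have : z0.mkQ x = 0 := hx
      rwa [Submodule.mkQ_apply, Submodule.Quotient.mk_eq_zero] at this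
    have hv' := h2 v x hv.2.1 hv.2.2 hv.1 hx'
    show p0.mkQ v = 0
    rwa [Submodule.mkQ_apply, Submodule.Quotient.mk_eq_zero]
  have e6 := Submodule.finrank_mono e4
  have e7 := Submodule.finrank_mono e5
  have e8 := finrank_map_mkQ hp
  have e9 := finrank_map_mkQ hz
  rw [e3] at e1
  omega

/-- The same for a linear map: `f` maps `p` to `z`, and `p0` is the preimage of `z0`. -/
lemma finrank_le_of_map {f : Module.End Ω V} {p0 p z0 z : Submodule Ω V} (hp : p0 ≤ p)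
    (hz : z0 ≤ z) (h1 : ∀ v ∈ p, f v ∈ z) (h2 : ∀ v ∈ p, f v ∈ z0 → v ∈ p0) :
    (finrank Ω p : ℤ) - finrank Ω p0 ≤ finrank Ω z - finrank Ω z0 := by
  refine finrank_rel (LinearMap.graph f) hp hz (fun v hv => ⟨f v, h1 v hv, ?_⟩)
    (fun v x hv hx hvx hx0 => ?_)
  · rw [LinearMap.mem_graph_iff]
  · rw [LinearMap.mem_graph_iff] at hvx
    exact h2 v hv (hvx ▸ hx0)

/-- The opposite inequality for a surjection on the quotients. -/
lemma finrank_ge_of_map {f : Module.End Ω V} {p0 p z0 z : Submodule Ω V} (hp : p0 ≤ p)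
    (hz : z0 ≤ z) (h1 : ∀ y ∈ z, ∃ v ∈ p, y - f v ∈ z0) (h2 : ∀ v ∈ p0, f v ∈ z0) :
    (finrank Ω z : ℤ) - finrank Ω z0 ≤ finrank Ω p - finrank Ω p0 := by
  have e1 := finrank_map_add_ker (z0.mkQ ∘ₗ f) p
  have e2 : p0 ≤ p ⊓ LinearMap.ker (z0.mkQ ∘ₗ f) := by
    intro v hv
    refine ⟨hp hv, ?_⟩
    show z0.mkQ (f v) = 0
    rw [Submodule.mkQ_apply, Submodule.Quotient.mk_eq_zero]
    exact h2 v hv
  have e3 : z.map z0.mkQ ≤ p.map (z0.mkQ ∘ₗ f) := by
    rintro _ ⟨y, hy, rfl⟩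
    obtain ⟨v, hv, hvy⟩ := h1 y hy
    refine ⟨v, hv, ?_⟩
    symm
    exact (Submodule.Quotient.eq z0).2 hvy
  have e4 := Submodule.finrank_mono e2
  have e5 := Submodule.finrank_mono e3
  have e6 := finrank_map_mkQ hz
  omega

end Linear

variable {Ω : Type u} [Field Ω] [CharZero Ω] {Γ : Type} {n q : ℕ}

variable (X : SemistableModel.{u, v} Ω Γ n q)

/-- The cohomology of the generic fibre is finite-dimensional. -/
lemma finite_V (m : ℕ) : FiniteDimensional Ω (X.V m) := by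
  obtain ⟨w0, hw0⟩ := X.W_bot m
  obtain ⟨w1, hw1⟩ := X.W_top m
  have key : ∀ k : ℕ, (X.W m (w0 + k)).FG := by
    intro k
    induction k with
    | zero =>
      rw [Nat.cast_zero, add_zero, hw0]
      exact Submodule.fg_bot
    | succ k ih =>
      have h1 : (X.sp m (w0 + (k + 1 : ℕ))).FG := by
        apply Submodule.fg_of_fg_map_of_fg_inf_ker (LinearMap.snd Ω (X.V m) X.C)
        · exact IsNoetherian.noetherian _
        · apply Submodule.FG.of_le (T := (X.W m (w0 + k)).map (LinearMap.inl Ω (X.V m) X.C))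
            (ih.map _)
          rintro ⟨v, x⟩ ⟨hv, hx⟩
          have hx0 : x = 0 := hx
          subst hx0
          refine ⟨v, ?_, rfl⟩
          have := (X.sp_ker m _ _ _ hv).2 (Submodule.zero_mem _)
          exact X.W_cast (by push_cast; ring) this
      have h2 : X.W m (w0 + (k + 1 : ℕ)) =
          (X.sp m (w0 + (k + 1 : ℕ))).map (LinearMap.fst Ω (X.V m) X.C) := by
        apply le_antisymm
        · intro v hv
          obtain ⟨x, hx⟩ := X.sp_left m _ v hv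
          exact ⟨(v, x), hx, rfl⟩
        · rintro _ ⟨⟨v, x⟩, hv, rfl⟩
          exact (X.sp_mem m _ _ _ hv).1
      rw [h2]
      exact h1.map _
  have h3 := key (w1 - w0).toNat
  have h4 : X.W m (w0 + ((w1 - w0).toNat : ℤ)) = ⊤ := by
    rw [eq_top_iff, ← hw1]
    apply X.W_mono m
    omega
  rw [h4] at h3
  exact ⟨h3⟩

lemma frob_W {m : ℕ} {w : ℤ} {v : X.V m} (hv : v ∈ X.W m w) : X.actV m X.frob v ∈ X.W m w := by
  obtain ⟨x, hx⟩ := X.sp_left m _ v hv
  exact (X.sp_mem m _ _ _ (X.sp_act m _ v x X.frob hx)).1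

/-- The eigenvalues on the graded pieces of the weight filtration are right. -/
lemma wrong_W [IsAlgClosed Ω] (m : ℕ) (w : ℤ) :
    X.W m w ⊓ wrongSpace q (X.actV m X.frob) w ≤ X.W m (w - 1) := by
  classical
  have := finite_V X m
  intro x hx
  set F := X.actV m X.frob with hF
  let T : Unit → Module.End Ω (X.V m) := fun _ => F
  have hT : ∀ g h, Commute (T g) (T h) := fun _ _ => Commute.refl _
  apply mem_of_prj_mem hT
  intro χ
  have h1 : prj T hT χ x ∈ X.W m w := prj_stable hT (fun _ y hy => frob_W X hy) χ hx.1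
  obtain ⟨k0, hk0⟩ := mem_Wt.1 (prj_mem hT χ x) ()
  set y := prj T hT χ x with hy
  set α := χ () with hα
  by_cases hw : IsWeilNumber q w α
  · -- the component is zero
    have h2 : wrongSpace q F w ≤ LinearMap.ker (prj T hT χ) := by
      apply iSup₂_le
      intro β hβ z hz
      rw [LinearMap.mem_ker]
      apply prj_of_mem_ne hT (χ' := fun _ => β)
      · intro h
        apply hβ
        have h0 : β = α := congrFun h ()
        rw [h0]
        exact hw
      · rw [mem_Wt]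
        intro _
        exact (Module.End.mem_maxGenEigenspace F β z).1 hz
    have h3 : y = 0 := h2 hx.2
    rw [h3]
    exact Submodule.zero_mem _
  · by_contra hcon
    have hex : ∃ k : ℕ, ((F - α • (1 : Module.End Ω (X.V m))) ^ k) y ∈ X.W m (w - 1) :=
      ⟨k0, by
        have h4 : ((F - α • (1 : Module.End Ω (X.V m))) ^ k0) y = 0 := hk0
        rw [h4]
        exact Submodule.zero_mem _⟩
    have h5 := Nat.find_spec hex
    have hpos : 0 < Nat.find hex := by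
      rw [Nat.pos_iff_ne_zero]
      intro h0
      rw [h0, pow_zero] at h5
      exact hcon h5
    obtain ⟨k, hk⟩ : ∃ k, Nat.find hex = k + 1 := ⟨Nat.find hex - 1, by omega⟩
    rw [hk, pow_succ', Module.End.mul_apply] at h5
    have h6 : ((F - α • (1 : Module.End Ω (X.V m))) ^ k) y ∉ X.W m (w - 1) :=
      Nat.find_min hex (by omega)
    have h7 : ∀ k : ℕ, ((F - α • (1 : Module.End Ω (X.V m))) ^ k) y ∈ X.W m w := by
      intro k
      induction k with
      | zero => exact h1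
      | succ k ih =>
        rw [pow_succ', Module.End.mul_apply, LinearMap.sub_apply, LinearMap.smul_apply,
          Module.End.one_apply]
        exact Submodule.sub_mem _ (frob_W X ih) (Submodule.smul_mem _ _ ih)
    exact hw (weil_W X m w (h7 k) h6 h5)

section Mon

variable {X} {m i : ℕ} (hiso : ∀ k : ℕ, i < k → WeightInj X m k ∧ WeightSurj X m k)
  {M : ℤ → Submodule Ω (X.V m)} (hM : IsMonodromyFiltration (X.N m) M)

include hiso hM

/-- `W_(m+r) ⊆ M_r`, for `r = i - 1`, and the codimension. -/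
lemma up_le (hi : 1 ≤ i) : X.W m ((m : ℤ) + i - 1) ≤ M ((i : ℤ) - 1) ∧
    (finrank Ω (M ((i : ℤ) - 1)) : ℤ) - finrank Ω (X.W m ((m : ℤ) + i - 1)) ≤
      kap X.diff X.tot i ((m : ℤ) - n) := by
  have := finite_V X m
  obtain ⟨hk1, hk2⟩ := mono_eq X hiso hM i le_rfl
  have hle : X.W m ((m : ℤ) + i - 1) ≤ M ((i : ℤ) - 1) := by
    intro v hv
    apply hM.inj i v
    · rw [hk1]
      exact X.W_mono m (by omega) hv
    · rw [hk2]
      exact X.W_cast (by ring) (N_pow_W X hv i)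
  refine ⟨hle, ?_⟩
  refine finrank_rel (X.sp m ((m : ℤ) + i)) hle
    (z := Zc X.diff X.tot (-i) ((m : ℤ) - n) ⊓ Bd X.diff X.tot i ((m : ℤ) - n))
    (z0 := Bd X.diff X.tot (-i) ((m : ℤ) - n)) ?_ ?_ ?_
  · apply le_inf (bd_le_zc' _ _)
    rintro _ ⟨x, hx, rfl⟩
    refine ⟨x, ?_, ?_⟩
    · have h1 := hx
      unfold SpecialFibre.tot at h1 ⊢
      have h2 : x ∈ X.E₁ ((i : ℤ) + 1) ((n : ℤ) + ((m : ℤ) - n - 1) - (i + 1)) := by
        have h3 := X.E₁_neg ((i : ℤ) + 1) ((n : ℤ) + ((m : ℤ) - n - 1) - (i + 1))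
        rw [← h3]
        exact X.mem_E₁_cast (by ring) (by ring) h1
      exact X.mem_E₁_cast rfl (by ring) (X.E₁_incl (by omega) h2)
    · rw [← X.diff_neg]
  · intro v hv
    have hv1 : v ∈ X.W m ((m : ℤ) + i) := by
      rw [← hk1]
      exact hM.mono (by omega) hv
    obtain ⟨x, hx⟩ := X.sp_left m _ v hv1
    refine ⟨x, ⟨?_, ?_⟩, hx⟩
    · rw [hzc]
      have := (X.sp_mem m _ _ _ hx).2
      rwa [show (m : ℤ) - (m + i) = -i by ring, show (m : ℤ) + i = m - -i by ring] at this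
    · have h1 := N_pow_M X hM hv i
      rw [show (i : ℤ) - 1 - 2 * i = -i - 1 by ring, hk2] at h1
      have h2 := X.N_pow_sp hx i le_rfl
      have h3 := (X.sp_ker m _ _ _ h2).1 (X.W_cast (by ring) h1)
      rw [hbd]
      rwa [show (m : ℤ) - ((m : ℤ) + i - 2 * i) = i by ring,
        show (m : ℤ) + i - 2 * i = m - i by ring] at h3
  · intro v x hv hx hvx hx0
    refine (X.sp_ker m _ _ _ hvx).2 ?_
    rw [hbd] at hx0
    rwa [show (m : ℤ) - (m + i) = -i by ring, show (m : ℤ) + i = m - -i by ring]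

/-- `M_(-r-1) ⊆ W_(m-r-1)`, for `r = i - 1`, and the codimension. -/
lemma down_le (hi : 1 ≤ i) : M (-(i : ℤ)) ≤ X.W m ((m : ℤ) - i) ∧
    (finrank Ω (X.W m ((m : ℤ) - i)) : ℤ) - finrank Ω (M (-(i : ℤ))) ≤
      cok X.diff X.tot i ((m : ℤ) - n) := by
  have := finite_V X m
  obtain ⟨hk1, hk2⟩ := mono_eq X hiso hM i le_rfl
  have hle : M (-(i : ℤ)) ≤ X.W m ((m : ℤ) - i) := by
    intro y hy
    obtain ⟨z, hz, hyz⟩ := hM.surj i y hy
    rw [hk2] at hyz
    rw [hk1] at hz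
    have h5 := N_pow_W X hz i
    have h6 : y = (y - (X.N m ^ i) z) + (X.N m ^ i) z := by abel
    rw [h6]
    apply Submodule.add_mem
    · exact X.W_mono m (by omega) hyz
    · exact X.W_cast (by ring) h5
  refine ⟨hle, ?_⟩
  unfold cok
  refine finrank_rel (X.sp m ((m : ℤ) - i)) hle
    (z := Zc X.diff X.tot i ((m : ℤ) - n))
    (z0 := Zc X.diff X.tot (-i) ((m : ℤ) - n) ⊔ Bd X.diff X.tot i ((m : ℤ) - n)) ?_ ?_ ?_
  · apply sup_le _ (bd_le_zc' _ _)
    rintro x ⟨h1, h2⟩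
    rw [tot_neg] at h1
    exact ⟨h1, X.diff_out (w := 0) (by omega) h2⟩
  · intro v hv
    obtain ⟨x, hx⟩ := X.sp_left m _ v hv
    refine ⟨x, ?_, hx⟩
    rw [hzc]
    have := (X.sp_mem m _ _ _ hx).2
    rwa [show (m : ℤ) - (m - i) = i by ring] at this
  · intro v x hv hx hvx hx0
    obtain ⟨x1, hx1, b, hb, rfl⟩ := Submodule.mem_sup.1 hx0
    rw [hzc] at hx1
    obtain ⟨v1, hv1⟩ := X.sp_right m ((m : ℤ) + i) x1 (by
      rwa [show (m : ℤ) - (m + i) = -i by ring, show (m : ℤ) + i = m - -i by ring])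
    have h1 := X.N_pow_sp hv1 i le_rfl
    have h2 : (v - (X.N m ^ i) v1, b) ∈ X.sp m ((m : ℤ) - i) := by
      have h3 := Submodule.sub_mem _ hvx (X.sp_cast (show (m : ℤ) + i - 2 * i = m - i by ring) h1)
      have h4 : b = (x1 + b) - x1 := by abel
      rw [h4]
      exact h3
    have h3 : v - (X.N m ^ i) v1 ∈ X.W m ((m : ℤ) - i - 1) := by
      refine (X.sp_ker m _ _ _ h2).2 ?_
      rw [show (m : ℤ) - (m - i) = i by ring, ← hbd]
      exact hb
    have h4 : v1 ∈ M i := by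
      rw [hk1]
      exact (X.sp_mem m _ _ _ hv1).1
    have h5 := N_pow_M X hM h4 i
    rw [show (i : ℤ) - 2 * i = -i by ring] at h5
    have h6 : v = (v - (X.N m ^ i) v1) + (X.N m ^ i) v1 := by abel
    rw [h6]
    apply Submodule.add_mem _ _ h5
    rw [← hk2] at h3
    exact hM.mono (by omega) h3

/-- The number of wrong eigenvalues in the degree `r = i - 1`. -/
lemma wrong_up [IsAlgClosed Ω] (hi : 1 ≤ i) :
    wrongNumber q (X.actV m X.frob) M ((i : ℤ) - 1) ((m : ℤ) + (i - 1)) ≤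
      kap X.diff X.tot i ((m : ℤ) - n) + cok X.diff X.tot i ((m : ℤ) - n) := by
  have := finite_V X m
  obtain ⟨h1, h2⟩ := up_le hiso hM hi
  obtain ⟨h3, h4⟩ := down_le hiso hM hi
  set U := wrongSpace q (X.actV m X.frob) ((m : ℤ) + (i - 1)) with hU
  have e1 := finrank_inf_sub h1 U
  -- the graded piece of the weight filtration
  have e2 : X.W m ((m : ℤ) + i - 1) ⊓ U ≤ X.W m ((m : ℤ) + i - 2) ⊓ U := by
    intro x hx
    refine ⟨?_, hx.2⟩
    have hx' : x ∈ X.W m ((m : ℤ) + (i - 1)) ⊓ wrongSpace q (X.actV m X.frob)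
        ((m : ℤ) + (i - 1)) := ⟨X.W_cast (by ring) hx.1, hx.2⟩
    exact X.W_cast (by ring) (wrong_W X m _ hx')
  have e3 := Submodule.finrank_mono e2
  -- the last step
  set A := M ((i : ℤ) - 1 - 1) ⊓ X.W m ((m : ℤ) + i - 2) with hA
  have e4 := finrank_inf_sub (show A ≤ X.W m ((m : ℤ) + i - 2) from inf_le_right) U
  have e5 : (finrank Ω (X.W m ((m : ℤ) + i - 2)) : ℤ) - finrank Ω A ≤
      finrank Ω (X.W m ((m : ℤ) - i)) - finrank Ω (M (-(i : ℤ))) := by
    refine finrank_le_of_map (f := X.N m ^ (i - 1)) inf_le_right h3 (fun v hv => ?_)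
      (fun v hv hv' => ⟨?_, hv⟩)
    · exact X.W_cast (by push_cast [Nat.cast_sub hi]; ring) (N_pow_W X hv (i - 1))
    · have h5 : v ∈ M (((i - 1 : ℕ) : ℤ)) := by
        have h6 : v ∈ M ((i : ℤ) - 1) := h1 (X.W_mono m (by omega) hv)
        rwa [show ((i - 1 : ℕ) : ℤ) = (i : ℤ) - 1 by omega]
      have h7 := hM.inj (i - 1) v h5 (by
        rwa [show -(((i - 1 : ℕ) : ℤ)) - 1 = -(i : ℤ) by omega])
      rwa [show ((i - 1 : ℕ) : ℤ) - 1 = (i : ℤ) - 1 - 1 by omega] at h7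
  have e6 : A ⊓ U ≤ M ((i : ℤ) - 1 - 1) ⊓ U := inf_le_inf_right _ inf_le_left
  have e7 := Submodule.finrank_mono e6
  unfold wrongNumber
  rw [← hU]
  omega

/-- The number of wrong eigenvalues in the degree `-r = 1 - i`. -/
lemma wrong_down [IsAlgClosed Ω] (hi : 1 ≤ i) :
    wrongNumber q (X.actV m X.frob) M (1 - (i : ℤ)) ((m : ℤ) + (1 - i)) ≤
      kap X.diff X.tot i ((m : ℤ) - n) + cok X.diff X.tot i ((m : ℤ) - n) := by
  have := finite_V X m
  obtain ⟨h1, h2⟩ := up_le hiso hM hi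
  obtain ⟨h3, h4⟩ := down_le hiso hM hi
  set U := wrongSpace q (X.actV m X.frob) ((m : ℤ) + (1 - i)) with hU
  set B := M (1 - (i : ℤ)) ⊓ X.W m ((m : ℤ) - i) with hB
  set B' := M (1 - (i : ℤ)) ⊓ X.W m ((m : ℤ) - i + 1) with hB'
  have hMB : M (1 - (i : ℤ) - 1) ≤ B := by
    rw [show 1 - (i : ℤ) - 1 = -i by ring]
    exact le_inf (hM.mono (by omega)) h3
  have e1 := finrank_inf_sub hMB U
  have e2 : finrank Ω B ≤ finrank Ω (X.W m ((m : ℤ) - i)) := Submodule.finrank_mono inf_le_right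
  have e3 : B' ⊓ U ≤ B ⊓ U := by
    rintro x ⟨⟨hx1, hx2⟩, hx3⟩
    refine ⟨⟨hx1, ?_⟩, hx3⟩
    have hx' : x ∈ X.W m ((m : ℤ) + (1 - i)) ⊓ wrongSpace q (X.actV m X.frob)
        ((m : ℤ) + (1 - i)) := ⟨X.W_cast (by ring) hx2, hx3⟩
    exact X.W_cast (by ring) (wrong_W X m _ hx')
  have e4 := Submodule.finrank_mono e3
  have e5 := finrank_inf_sub (show B' ≤ M (1 - (i : ℤ)) from inf_le_left) U
  have e6 : (finrank Ω (M (1 - (i : ℤ))) : ℤ) - finrank Ω B' ≤
      finrank Ω (M ((i : ℤ) - 1)) - finrank Ω (X.W m ((m : ℤ) + i - 1)) := by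
    refine finrank_ge_of_map (f := X.N m ^ (i - 1)) h1 inf_le_left (fun y hy => ?_)
      (fun v hv => ⟨?_, ?_⟩)
    · have hy' : y ∈ M (-(((i - 1 : ℕ) : ℤ))) := by
        rwa [show -(((i - 1 : ℕ) : ℤ)) = 1 - (i : ℤ) by omega]
      obtain ⟨v, hv, hvy⟩ := hM.surj (i - 1) y hy'
      rw [show ((i - 1 : ℕ) : ℤ) = (i : ℤ) - 1 by omega] at hv
      rw [show -(((i - 1 : ℕ) : ℤ)) - 1 = -(i : ℤ) by omega] at hvy
      exact ⟨v, hv, hM.mono (by omega) hvy, X.W_mono m (by omega) (h3 hvy)⟩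
    · have h5 := N_pow_M X hM (h1 hv) (i - 1)
      rwa [show (i : ℤ) - 1 - 2 * ((i - 1 : ℕ) : ℤ) = 1 - i by omega] at h5
    · exact X.W_cast (by push_cast [Nat.cast_sub hi]; ring) (N_pow_W X hv (i - 1))
  have e7 : M (1 - (i : ℤ) - 1) = M (-(i : ℤ)) := by
    rw [show 1 - (i : ℤ) - 1 = -i by ring]
  rw [e7] at e1
  unfold wrongNumber
  rw [e7, ← hU]
  omega

end Mon

end Pool.Agent.R942.WB
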