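import Pool.Agent.R942.WS.Classes

/-!
# The dimensions of the kernel and of the cokernel of `N ^ i`
-/

set_option autoImplicit false

namespace Pool.Agent.R942.WB

open Module Submodule Pool.Agent.Y143 Pool.Agent.Y143.LefDual Pool.Agent.R942.WS

variable {Ω : Type*} [Field Ω] {C : Type*} [AddCommGroup C] [Module Ω C]

/-- The dimension of the kernel of `N ^ i` on cohomology in bidegree `(-i, j)`. -/
noncomputable def kap (d : ℤ → Module.End Ω C) (G : ℤ → ℤ → Submodule Ω C) (i j : ℤ) : ℤ :=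
  finrank Ω (Zc d G (-i) j ⊓ Bd d G i j : Submodule Ω C) - finrank Ω (Bd d G (-i) j)

/-- The dimension of the cokernel of `N ^ i` on cohomology in bidegree `(-i, j)`. -/
noncomputable def cok (d : ℤ → Module.End Ω C) (G : ℤ → ℤ → Submodule Ω C) (i j : ℤ) : ℤ :=
  finrank Ω (Zc d G i j) - finrank Ω (Zc d G (-i) j ⊔ Bd d G i j : Submodule Ω C)

variable [FiniteDimensional Ω C] {ψ : C →ₗ[Ω] C →ₗ[Ω] Ω} {d : ℤ → Module.End Ω C}
  {L : Module.End Ω C} {G G' : ℤ → ℤ → Submodule Ω C}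

lemma kap_HL (h : LefComplex d L G) (i : ℤ) (hi : 1 ≤ i) (m : ℕ) :
    kap d G i (-m) = kap d G i m := by
  apply finrank_sub_of_iso (L ^ m) (le_inf (h.bd_le _ _) (h.bd_neg_le i hi _))
    (le_inf (h.bd_le _ _) (h.bd_neg_le i hi _))
  · intro x hx
    have h1 := h.Lpow_zc m hx.1
    have h2 := h.Lpow_bd m hx.2
    rw [show (-(m : ℤ) + 2 * m) = m by ring] at h1 h2
    exact ⟨h1, h2⟩
  · intro x hx
    have := h.Lpow_bd m hx
    rwa [show (-(m : ℤ) + 2 * m) = m by ring] at this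
  · intro x hx hx'
    exact h.hlInj (-i) m x hx.1 hx'
  · intro y hy
    obtain ⟨x0, hx0, hb⟩ := h.hlSurj (-i) m y hy.1
    have hb' := h.bd_neg_le i hi m hb
    have h1 : (L ^ m) x0 ∈ Bd d G i m := by
      have := Submodule.sub_mem _ hy.2 hb'
      simpa using this
    exact ⟨x0, ⟨hx0, h.hlInj i m x0 (h.zc_neg_le i hi _ hx0) h1⟩, hb⟩

lemma kap_abs (h : LefComplex d L G) (i : ℤ) (hi : 1 ≤ i) (j : ℤ) :
    kap d G i (-j) = kap d G i j := by
  rcases le_total 0 j with hj | hj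
  · obtain ⟨m, rfl⟩ := Int.eq_ofNat_of_zero_le hj
    exact kap_HL h i hi m
  · obtain ⟨m, hm⟩ := Int.eq_ofNat_of_zero_le (show 0 ≤ -j by omega)
    obtain rfl : j = -m := by omega
    rw [neg_neg]
    exact (kap_HL h i hi m).symm

lemma cok_eq (h : LefDual ψ d L G G') (hG : LefComplex d L G) (hG' : LefComplex d L G')
    (i : ℤ) (hi : 1 ≤ i) (j : ℤ) : cok d G i j = kap d G' i (-j) := by
  have hsub1 : Zc d G i j ≤ G i j := inf_le_left
  have hsub2 : Zc d G (-i) j ⊔ Bd d G i j ≤ G i j := by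
    apply sup_le
    · exact (hG.zc_neg_le i hi j).trans inf_le_left
    · exact bd_le_G' hG i j
  have h1 := (h.perf i j).finrank_annR hsub1
  have h2 := (h.perf i j).finrank_annR hsub2
  rw [h.annR_zc hG hG'] at h1
  rw [annR_sup] at h2
  have e1 : annR ψ (Zc d G (-i) j) (G' (-i) (-j)) = Bd d G' i (-j) := by
    have := h.annR_zc hG hG' (-i) j
    rw [neg_neg] at this
    rw [← this, hG'.neg]
  have e2 : annR ψ (Bd d G i j) (G' (-i) (-j)) = Zc d G' (-i) (-j) := h.annR_bd hG' i j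
  rw [e1, e2, inf_comm] at h2
  unfold cok kap
  omega

/-- The kernel and the cokernel have the same dimension for a self-dual complex. -/
lemma cok_eq_kap (h : LefDual ψ d L G G) (hG : LefComplex d L G)
    (i : ℤ) (hi : 1 ≤ i) (j : ℤ) : cok d G i j = kap d G i j := by
  rw [cok_eq h hG hG i hi j, kap_abs hG i hi j]

/-- An isotropic subspace has at most half of the dimension. -/
lemma two_finrank_le {Q : C →ₗ[Ω] C →ₗ[Ω] Ω} {P Z : Submodule Ω C} (hP : Perf Q P P)
    (hZ : Z ≤ P) (hiso : ∀ x ∈ Z, ∀ y ∈ Z, Q x y = 0) : 2 * finrank Ω Z ≤ finrank Ω P := by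
  have h1 := hP.finrank_annR hZ
  have h2 : Z ≤ annR Q Z P := fun y hy => ⟨hZ hy, fun x hx => hiso x hx y hy⟩
  have h3 := Submodule.finrank_mono h2
  omega

end Pool.Agent.R942.WB
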