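import Pool.Agent.R942.WB.Place

/-!
# The dual of a character at a critical place
-/

set_option autoImplicit false

namespace Pool.Agent.R942.WB

open Module Submodule Pool.Agent.Y143 Pool.Agent.Y143.LefDual Pool.Agent.R942.WS
  Pool.Agent.R942.WM

universe u v

variable {Ω : Type u} [Field Ω] [CharZero Ω] {Γ : Type} {n q : ℕ}

section Fibre

variable {X : SpecialFibre.{u, v} Ω Γ n q}

variable (X) in
/-- The character dual to `χ` in the weight `w`. -/
def dualC (w : ℕ) (χ : Γ → Ω) : Γ → Ω := fun g => X.cyc' g ^ w * χ (X.tr g)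

lemma dualC_dualC (w : ℕ) (χ : Γ → Ω) : dualC X w (dualC X w χ) = χ := by
  funext g
  unfold dualC
  rw [X.cyc'_tr, X.tr_tr, ← mul_assoc, inv_pow, mul_inv_cancel₀ (pow_ne_zero _ (X.cyc'_ne g)),
    one_mul]

lemma frm_inv {i m w : ℕ} (h : i + w + m = n) (g : Γ) {x : X.C} (hx : x ∈ X.tot i (-m)) (y : X.C) :
    frm X.psi X.lefC m (X.actC i g x) y =
      X.cyc' g ^ w * frm X.psi X.lefC m x (X.actC i (X.tr g) y) := by
  rw [frm_apply, frm_apply, X.psi_inv i (-m) g x _ hx, X.sym.LTpow, X.cyc'_tr]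
  have h1 : X.actC (-(i : ℤ)) (X.tr g) y = (X.cyc' g)⁻¹ ^ (i : ℤ) • X.actC i (X.tr g) y := by
    have := X.sym.shift (i : ℤ) (i : ℤ) (X.tr g) y
    rw [show (i : ℤ) - 2 * i = -i by ring, X.cyc'_tr] at this
    exact this
  rw [h1, map_smul, map_smul, map_smul, smul_eq_mul, smul_eq_mul, ← mul_assoc, ← mul_assoc]
  congr 1
  have hc := X.cyc'_ne g
  have hn : (n : ℤ) = i + w + m := by omega
  rw [hn, zpow_add₀ hc, zpow_add₀ hc, zpow_natCast, zpow_natCast, zpow_natCast, zpow_natCast,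
    inv_pow, inv_pow]
  field_simp

lemma pr_eq {i m w : ℕ} (h : i + w + m = n) :
    Pr X.lefC X.tot i m = X.primitive (i : ℤ) (w : ℤ) := by
  unfold Pr SpecialFibre.primitive kerPow SpecialFibre.tot
  rw [show ((n : ℤ) + 1 - (i : ℤ) - (w : ℤ)).toNat = m + 1 by omega,
    show (n : ℤ) + -m - (i : ℤ) = w by omega]

lemma stab_prim {i m w : ℕ} (h : i + w + m = n) (g : Γ) {x : X.C}
    (hx : x ∈ X.primitive (i : ℤ) (w : ℤ)) : X.actC i g x ∈ X.primitive (i : ℤ) (w : ℤ) := by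
  rw [← pr_eq h] at hx ⊢
  refine ⟨X.sym.stab _ _ _ _ hx.1, ?_⟩
  have h1 := X.sym.LTpow i (m + 1) g x
  rw [show (X.lefC ^ (m + 1)) x = 0 from hx.2, map_zero] at h1
  rw [SetLike.mem_coe, LinearMap.mem_ker]
  rcases smul_eq_zero.1 h1.symm with h2 | h2
  · exact absurd h2 (pow_ne_zero _ (X.cyc'_ne g))
  · exact h2

lemma frob_tr {i : ℤ} {χ : Γ → Ω} {x : X.C} (hx : x ∈ Wt (X.actC i) χ) (hx0 : x ≠ 0) :
    χ X.frob * χ (X.tr X.frob) = 1 := by
  refine inv_of_wt (S := X.actC i X.frob) (S' := X.actC i (X.tr X.frob)) (X.actC_comm i _ _)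
    (fun y => ?_) hx0 (mem_Wt.1 hx _) (mem_Wt.1 hx _)
  funext a
  rw [X.actC_apply, X.actC_apply, map_smul, smul_smul, X.frob_inv, X.cyc_tr]
  rw [← Units.val_mul, ← mul_zpow, inv_mul_cancel, one_zpow, Units.val_one, one_smul]

variable [IsAlgClosed Ω]

lemma perf_primPart {X : Degeneration.{u, v} Ω Γ n q} {i m w : ℕ} (h : i + w + m = n)
    (χ : Γ → Ω) : Perf (frm X.psi X.lefC m) (X.primPart i w (dualC X.toSpecialFibre w χ))
      (X.primPart i w χ) := by
  have hP := perf_prim X.lefDual X.lefComplex (i : ℤ) m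
  rw [pr_eq h] at hP
  exact perf_Wt (κ := fun g => X.cyc' g ^ w) (X.sym.comm i) (X.sym.comm i) X.tr_tr
    (fun g x hx => stab_prim (X := X.toSpecialFibre) h g hx)
    (fun g x hx => stab_prim (X := X.toSpecialFibre) h g hx)
    (fun g x hx y hy => by
      rw [← pr_eq (X := X.toSpecialFibre) h] at hx
      exact frm_inv (X := X.toSpecialFibre) h g hx.1 y) (fun g => rfl) (fun g => pow_ne_zero _ (X.cyc'_ne g)) hP

lemma multOne_dual_of {X : Degeneration.{u, v} Ω Γ n q} (A : DivisorClasses X.toSpecialFibre)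
    {i m w : ℕ} (h : i + w + m = n) {χ : Γ → Ω} (hχ : MultOne A i w χ) :
    MultOne A i w (dualC X.toSpecialFibre w χ) := by
  have hdim := (perf_primPart (X := X) h χ).finrank_eq
  rcases hχ with h1 | ⟨h1, ⟨k, hk, hk'⟩, h3⟩
  · left
    rw [hdim]
    exact h1
  · by_cases h0 : X.primPart i w χ = ⊥
    · left
      rw [hdim, h0, finrank_bot]
      exact Nat.zero_le _
    · right
      refine ⟨h1, ⟨k, hk, ?_⟩, h3⟩
      obtain ⟨x, hx, hx0⟩ := (Submodule.ne_bot_iff _).1 h0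
      have h4 := frob_tr hx.2 hx0
      subst h1
      have hq : (q : Ω) ≠ 0 := Nat.cast_ne_zero.2 X.q_ne
      have h5 : X.cyc' X.frob = (q : Ω) := X.cyc_frob
      unfold dualC
      rw [h5, mul_pow]
      have h6 : χ X.frob ^ k * χ (X.tr X.frob) ^ k = 1 := by rw [← mul_pow, h4, one_pow]
      rw [hk'] at h6
      have h7 : (q : Ω) ^ k ≠ 0 := pow_ne_zero _ hq
      calc ((q : Ω) ^ 2) ^ k * χ (X.tr X.frob) ^ k
          = (q : Ω) ^ k * ((q : Ω) ^ k * χ (X.tr X.frob) ^ k) := by ring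
        _ = (q : Ω) ^ k := by rw [h6, mul_one]

lemma isBad_dual {X : Degeneration.{u, v} Ω Γ n q} (A : DivisorClasses X.toSpecialFibre)
    {i w : ℕ} (h : i + w ≤ n) {χ : Γ → Ω} (hχ : IsBad A i w (dualC X.toSpecialFibre w χ)) :
    IsBad A i w χ := by
  obtain ⟨i', h1, h2, h3⟩ := hχ
  refine ⟨i', h1, h2, fun h4 => h3 ?_⟩
  exact multOne_dual_of A (m := n - (i' + w)) (by omega) h4

/-- The form is perfect on the bad part. -/
lemma perf_badPart {X : Degeneration.{u, v} Ω Γ n q} (A : DivisorClasses X.toSpecialFibre)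
    {i m w : ℕ} (h : i + w + m = n) :
    Perf (frm X.psi X.lefC m) (badPart A i w) (badPart A i w) := by
  have hP := perf_prim X.lefDual X.lefComplex (i : ℤ) m
  rw [pr_eq h] at hP
  have hle : badPart A i w ≤ X.primitive (i : ℤ) (w : ℤ) :=
    iSup₂_le fun χ _ => inf_le_left
  have horth : ∀ μ ν : Γ → Ω, μ ≠ dualC X.toSpecialFibre w ν → ∀ x ∈ X.primPart i w μ,
      ∀ y ∈ X.primPart i w ν, frm X.psi X.lefC m x y = 0 := by
    intro μ ν hne x hx y hy
    exact orth_Wt (A := X.primitive (i : ℤ) (w : ℤ)) (A' := X.primitive (i : ℤ) (w : ℤ))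
      (T := X.actC i) (T' := X.actC i) (κ := fun g => X.cyc' g ^ w)
      (fun g x hx => stab_prim h g hx) (fun g x hx => stab_prim h g hx)
      (fun g x hx y hy => by
        rw [← pr_eq h] at hx
        exact frm_inv h g hx.1 y) hne hx.1 hy.1 hx.2 hy.2
  constructor
  · intro x hx h0
    apply hP.left x (hle hx)
    intro y hy
    suffices hh : y ∈ X.primitive (i : ℤ) (w : ℤ) ⊓ LinearMap.ker (frm X.psi X.lefC m x) from hh.2
    apply mem_of_prj_mem (X.sym.comm i)
    intro ν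
    have hy' : prj (X.actC i) (X.sym.comm i) ν y ∈ X.primitive (i : ℤ) (w : ℤ) :=
      prj_stable (X.sym.comm i) (fun g y hy => stab_prim h g hy) ν hy
    have hy2 : prj (X.actC i) (X.sym.comm i) ν y ∈ X.primPart i w ν := ⟨hy', prj_mem _ _ _⟩
    refine ⟨hy', ?_⟩
    rw [SetLike.mem_coe, LinearMap.mem_ker]
    by_cases hb : IsBad A i w ν
    · exact h0 _ (Submodule.mem_iSup_of_mem ν (Submodule.mem_iSup_of_mem hb hy2))
    · have hx2 : x ∈ ⨆ χ ∈ {χ : Γ → Ω | IsBad A i w χ}, X.primPart i w χ := hx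
      have hle2 : (⨆ χ ∈ {χ : Γ → Ω | IsBad A i w χ}, X.primPart i w χ) ≤
          LinearMap.ker ((frm X.psi X.lefC m).flip (prj (X.actC i) (X.sym.comm i) ν y)) := by
        apply iSup₂_le
        intro μ hμ z hz
        rw [LinearMap.mem_ker, LinearMap.flip_apply]
        apply horth μ ν _ z hz _ hy2
        rintro rfl
        exact hb (isBad_dual A (by omega) hμ)
      exact hle2 hx2
  · intro y hy h0
    apply hP.right y (hle hy)
    intro x hx
    suffices hh : x ∈ X.primitive (i : ℤ) (w : ℤ) ⊓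
      LinearMap.ker ((frm X.psi X.lefC m).flip y) from hh.2
    apply mem_of_prj_mem (X.sym.comm i)
    intro μ
    have hx' : prj (X.actC i) (X.sym.comm i) μ x ∈ X.primitive (i : ℤ) (w : ℤ) :=
      prj_stable (X.sym.comm i) (fun g y hy => stab_prim h g hy) μ hx
    have hx2 : prj (X.actC i) (X.sym.comm i) μ x ∈ X.primPart i w μ := ⟨hx', prj_mem _ _ _⟩
    refine ⟨hx', ?_⟩
    rw [SetLike.mem_coe, LinearMap.mem_ker, LinearMap.flip_apply]
    by_cases hb : IsBad A i w μ
    · exact h0 _ (Submodule.mem_iSup_of_mem μ (Submodule.mem_iSup_of_mem hb hx2))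
    · have hy2 : y ∈ ⨆ χ ∈ {χ : Γ → Ω | IsBad A i w χ}, X.primPart i w χ := hy
      have hle2 : (⨆ χ ∈ {χ : Γ → Ω | IsBad A i w χ}, X.primPart i w χ) ≤
          LinearMap.ker (frm X.psi X.lefC m (prj (X.actC i) (X.sym.comm i) μ x)) := by
        apply iSup₂_le
        intro ν hν z hz
        rw [LinearMap.mem_ker]
        apply horth μ ν _ _ hx2 z hz
        rintro rfl
        apply hb
        apply isBad_dual A (by omega)
        rw [dualC_dualC]
        exact hν
      exact hle2 hy2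

end Fibre

end Pool.Agent.R942.WB
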