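import Pool.Agent.R942.WB.Kernel
import Pool.Agent.R942.WB.Count

/-!
# A bound for the number of wrong Frobenius eigenvalues
-/

set_option autoImplicit false

namespace Pool.Agent.R942.WB

open Module Submodule Pool.Agent.Y143 Pool.Agent.R942.WS Pool.Agent.R942.WM

universe u v

variable {Ω : Type u} [Field Ω] [CharZero Ω] [IsAlgClosed Ω] {Γ : Type} {n q : ℕ}
  {X : Degeneration.{u, v} Ω Γ n q} (A : DivisorClasses X.toSpecialFibre)

/-- The two bounds, for a cohomology group `H^m'` and a bound `K` for the kernel. -/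
lemma wrong_both {m' i : ℕ} (hi : 1 ≤ i)
    (hiso : ∀ k : ℕ, i < k → WeightInj X.toSemistableModel m' k ∧
      WeightSurj X.toSemistableModel m' k) {K : ℤ}
    (h1 : kap X.diff X.tot i ((m' : ℤ) - n) + cok X.diff X.tot i ((m' : ℤ) - n) ≤ K)
    {M : ℤ → Submodule Ω (X.V m')} (hM : IsMonodromyFiltration (X.N m') M) (j : ℤ)
    (hj : |j| = (i : ℤ) - 1) :
    wrongNumber q (X.actV m' X.frob) M j ((m' : ℤ) + j) ≤ K := by
  rcases abs_choice j with h | h
  · have hj' : j = (i : ℤ) - 1 := by omega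
    rw [hj']
    exact (wrong_up hiso hM hi).trans h1
  · have hj' : j = 1 - (i : ℤ) := by omega
    rw [hj']
    exact (wrong_down hiso hM hi).trans h1

theorem defect_bound {W : ℕ} (hW1 : 1 ≤ W) (hW : GoodUpTo A W) {m : ℕ} (hm : W + 2 ≤ m)
    (hmn : m ≤ n) (j : ℤ) (hj : |j| = (m : ℤ) - W - 2) :
    WrongAtMost X.toSemistableModel m j (2 * (badDim A (m - W - 1) (W + 1) / 2)) ∧
    WrongAtMost X.toSemistableModel (2 * n - m) j
      (2 * (badDim A (m - W - 1) (W + 1) / 2)) := by
  unfold badDim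
  set i := m - W - 1 with hi
  have hi1 : 1 ≤ i := by omega
  have hpl : i + (W + 1) + (n - m) = n := by omega
  have hkap := two_kap_le A hW hW1 hi1 hpl
  have hpure := pure_beyond X A hW hmn
  have hcast : (m : ℤ) - n = -((n - m : ℕ) : ℤ) := by omega
  have hcast2 : (((2 * n - m : ℕ) : ℤ)) - n = ((n - m : ℕ) : ℤ) := by omega
  have hcok1 := cok_eq_kap X.lefDual X.lefComplex (i : ℤ) (by omega) (-((n - m : ℕ) : ℤ))
  have hcok2 := cok_eq_kap X.lefDual X.lefComplex (i : ℤ) (by omega) ((n - m : ℕ) : ℤ)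
  have hka := kap_abs X.lefComplex (i : ℤ) (by omega) ((n - m : ℕ) : ℤ)
  constructor
  · intro M hM
    refine wrong_both hi1 hpure.1.iso ?_ hM j (by omega)
    rw [hcast, hcok1]
    omega
  · intro M hM
    refine wrong_both hi1 hpure.2.iso ?_ hM j (by omega)
    rw [hcast2, hcok2, ← hka]
    omega

end Pool.Agent.R942.WB
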