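import Pool.Agent.R942.WB.Dual
import Pool.Agent.R942.WS.Final

/-!
# The kernel of `N ^ i` at the first open place
-/

set_option autoImplicit false

namespace Pool.Agent.R942.WB

open Module Submodule Pool.Agent.Y143 Pool.Agent.Y143.LefDual Pool.Agent.R942.WS
  Pool.Agent.R942.WM

universe u v

variable {Ω : Type u} [Field Ω] [CharZero Ω] {Γ : Type} {n q : ℕ} [IsAlgClosed Ω]

variable {X : Degeneration.{u, v} Ω Γ n q} (A : DivisorClasses X.toSpecialFibre)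

/-- The place `(i, m)` in the class of `χ`. -/
lemma fine_at {i w m : ℕ} (hi : 1 ≤ i) (hw : 2 ≤ w) (hn : i + w + m = n) (χ : Γ → Ω) (p : ℤ)
    (h : MultOne A i w (chr X.cyc' χ n p i (-m))) : Fine X.diff X.lefC (X.cls χ p) i m := by
  obtain ⟨a, rfl⟩ : ∃ a : ℕ, i = a + 1 := ⟨i - 1, by omega⟩
  rcases h with h | ⟨h1, h2, h3⟩
  · apply fine_of_simple X.sym X.lefComplex
    have e1 : Pr X.lefC (Cl X.tot X.actC X.cyc' χ n p) ((a + 1 : ℕ) : ℤ) m =
        X.primPart ((a + 1 : ℕ) : ℤ) (w : ℤ)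
          (chr X.cyc' χ n p ((a + 1 : ℕ) : ℤ) (-m)) := by
      unfold Pr Cl SpecialFibre.primPart SpecialFibre.primitive kerPow SpecialFibre.tot
      rw [show ((n : ℤ) + 1 - ((a + 1 : ℕ) : ℤ) - (w : ℤ)).toNat = m + 1 by omega,
        show (n : ℤ) + -m - ((a + 1 : ℕ) : ℤ) = w by omega, inf_right_comm]
    rw [e1]
    exact Or.inl h
  · left
    subst h1
    obtain ⟨e, he⟩ : ∃ e, n = a + 3 + e := ⟨m, by omega⟩
    have e3 : -(m : ℤ) = ((a + 3 : ℕ) : ℤ) - n := by omega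
    rw [e3] at h2 ⊢
    exact nInj_tate A he (by simpa using h3) χ p h2

/-- The lower diagonals. -/
lemma diag_low {W : ℕ} (hW : GoodUpTo A W) (χ : Γ → Ω) (i j : ℤ) (h : j - i ≤ (W : ℤ) - n) :
    Diag X.diff (X.cls χ 0) (X.cls (X.dualChar χ) (1 - 0)) i j := by
  apply main' (D := (W : ℤ) - n) (X.cls_dual 0 χ) (X.cls_lefComplex χ 0)
    (X.cls_lefComplex (X.dualChar χ) (1 - 0)) _ _ _ h
  intro i hi m' hm'
  exact ⟨fine_of A W hW χ 0 i hi m' (by omega),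
    fine_of A W hW (X.dualChar χ) (1 - 0) i hi m' (by omega)⟩

lemma chr_dual (χ : Γ → Ω) {w : ℕ} {i j i' j' : ℤ} (h : (n : ℤ) + j - i = w)
    (h' : (n : ℤ) + j' - i' = w) :
    chr X.cyc' (X.dualChar χ) n (1 - 0) i' j' =
      dualC X.toSpecialFibre w (chr X.cyc' χ n 0 i j) := by
  funext g
  unfold chr dualC SpecialFibre.dualChar
  have hc := X.cyc'_ne g
  show X.cyc' g ^ ex n (1 - 0) i' j' * (X.cyc' g * χ (X.tr g)) =
    X.cyc' g ^ w * (X.cyc' (X.tr g) ^ ex n 0 i j * χ (X.tr g))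
  rw [X.cyc'_tr]
  have e1 : ex n (1 - 0) i' j' = ((w : ℤ) - 1) / 2 := by
    unfold ex
    rw [h']
    norm_num
  have e2 : ex n 0 i j = (w : ℤ) / 2 := by
    unfold ex
    rw [h, sub_zero]
  rw [e1, e2, ← mul_assoc, ← mul_assoc, inv_zpow, ← zpow_neg, ← zpow_natCast, ← zpow_add₀ hc,
    ← zpow_add_one₀ hc]
  congr 2
  omega

omit [IsAlgClosed Ω] in
lemma chr_same (χ : Γ → Ω) {w : ℕ} {i j i' j' : ℤ} (h : (n : ℤ) + j - i = w)
    (h' : (n : ℤ) + j' - i' = w) :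
    chr X.cyc' χ n 0 i' j' = chr X.cyc' χ n 0 i j := by
  funext g
  unfold chr ex
  rw [h, h']

/-- `N ^ i` is injective on the classes which are not bad. -/
lemma nInj_class {W i m : ℕ} (hW : GoodUpTo A W) (hW1 : 1 ≤ W) (hi : 1 ≤ i)
    (hn : i + (W + 1) + m = n) (χ : Γ → Ω)
    (hχ : ¬ IsBad A i (W + 1) (chr X.cyc' χ n 0 i (-m))) :
    NInj X.diff (X.cls χ 0) i (-m) := by
  have hone : ∀ i' : ℕ, 1 ≤ i' → i' ≤ i → MultOne A i' (W + 1) (chr X.cyc' χ n 0 i (-m)) := by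
    intro i' h1 h2
    by_contra h3
    exact hχ ⟨i', h1, h2, h3⟩
  have hcast : (n : ℤ) + -m - i = ((W + 1 : ℕ) : ℤ) := by push_cast; omega
  refine (main_upto (D := -(m : ℤ) - i) (I := i) (X.cls_dual 0 χ) (X.cls_lefComplex χ 0)
    (X.cls_lefComplex (X.dualChar χ) (1 - 0)) (fun i' j' hd => ?_) (fun i' h1 h2 m' hm' => ?_)
    (i : ℤ) (-m) rfl le_rfl).good (by omega) |>.inj
  · exact diag_low A hW χ i' j' (by omega)
  · obtain ⟨k, rfl⟩ := Int.eq_ofNat_of_zero_le (show 0 ≤ i' by omega)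
    have hcast' : (n : ℤ) + -m' - k = ((W + 1 : ℕ) : ℤ) := by push_cast; omega
    have h3 := hone k (by omega) (by omega)
    constructor
    · apply fine_at A (w := W + 1) (by omega) (by omega) (by omega) χ 0
      rw [chr_same χ hcast hcast']
      exact h3
    · apply fine_at A (w := W + 1) (by omega) (by omega) (by omega) (X.dualChar χ) (1 - 0)
      rw [chr_dual χ hcast hcast']
      exact multOne_dual_of A (m := m') (by omega) h3

/-- The kernel of `N ^ i` is represented by the primitive elements of the bad characters. -/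
lemma ker_le {W i m : ℕ} (hW : GoodUpTo A W) (hW1 : 1 ≤ W) (hi : 1 ≤ i)
    (hn : i + (W + 1) + m = n) :
    Zc X.diff X.tot (-i) (-m) ⊓ Bd X.diff X.tot i (-m) ≤
      Bd X.diff X.tot (-i) (-m) ⊔ (Zp X.diff X.lefC X.tot i m ⊓ badPart A i (W + 1)) := by
  intro x hx
  apply mem_of_prj_mem (X.sym.comm (-i))
  intro μ
  obtain ⟨χ, rfl⟩ := exists_chr X.sym.cne n 0 (-i) (-m) μ
  have hy1 := X.sym.prj_zc χ n 0 hx.1
  have hy2 := X.sym.prj_bd χ n 0 hx.2
  rw [← prj_neg X.sym] at hy2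
  set y := prj (X.actC (-i)) (X.sym.comm (-i)) (chr X.cyc' χ n 0 (-i) (-m)) x
  by_cases hb : IsBad A i (W + 1) (chr X.cyc' χ n 0 i (-m))
  · have hI : NInj X.diff (X.cls χ 0) i ((m : ℤ) + 2) := by
      have h1 := (diag_low A hW χ i (-((m + 2 : ℕ) : ℤ)) (by push_cast; omega)).good
        (by omega) |>.inj
      have h2 := (X.cls_lefComplex χ 0).nInj_pos i (by omega) (m + 2) h1
      rwa [show ((m + 2 : ℕ) : ℤ) = (m : ℤ) + 2 by push_cast; ring] at h2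
    obtain ⟨z, hz, hz'⟩ := (X.cls_lefComplex χ 0).lred' i (by omega) m hI ⟨hy1, hy2⟩
    refine Submodule.mem_sup.2 ⟨z, Sym.bd_cl_le χ n 0 _ _ hz, y - z, ?_, by abel⟩
    refine ⟨⟨⟨Sym.zc_cl_le χ n 0 _ _ hz'.1.1, Sym.bd_cl_le χ n 0 _ _ hz'.1.2⟩, hz'.2⟩, ?_⟩
    refine Submodule.mem_iSup_of_mem (chr X.cyc' χ n 0 i (-m)) (Submodule.mem_iSup_of_mem hb ?_)
    have h3 : y - z ∈ Cl X.tot X.actC X.cyc' χ n 0 i (-m) :=
      (X.cls_lefComplex χ 0).bd_le_G i _ hz'.1.2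
    refine ⟨?_, h3.2⟩
    rw [← pr_eq (X := X.toSpecialFibre) hn]
    exact ⟨h3.1, hz'.2⟩
  · have h1 := nInj_class A hW hW1 hi hn χ hb ⟨hy1, hy2⟩
    exact Submodule.mem_sup_left (Sym.bd_cl_le χ n 0 _ _ h1)

/-- The kernel of `N ^ i` has at most half of the dimension of the bad part. -/
theorem two_kap_le {W i m : ℕ} (hW : GoodUpTo A W) (hW1 : 1 ≤ W) (hi : 1 ≤ i)
    (hn : i + (W + 1) + m = n) :
    2 * kap X.diff X.tot i (-m) ≤ finrank Ω (badPart A i (W + 1)) := by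
  have h1 := Submodule.finrank_mono (ker_le A hW hW1 hi hn)
  have h2 := Submodule.finrank_add_le_finrank_add_finrank (Bd X.diff X.tot (-i) (-m))
    (Zp X.diff X.lefC X.tot i m ⊓ badPart A i (W + 1))
  have h3 := two_finrank_le (perf_badPart A hn)
    (Z := Zp X.diff X.lefC X.tot i m ⊓ badPart A i (W + 1)) inf_le_right
    (fun x hx y hy => X.lefDual.isotropy X.lefComplex X.lefComplex i m hx.1.1.1 hy.1.1.2)
  unfold kap
  omega

end Pool.Agent.R942.WB
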