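import Pool.Agent.R942.WB.Upto

/-!
# The form on the primitive part of a critical place
-/

set_option autoImplicit false

namespace Pool.Agent.R942.WB

open Module Submodule Pool.Agent.Y143 Pool.Agent.Y143.LefDual Pool.Agent.R942.WS

section Abstract

variable {Ω : Type*} [Field Ω] {C : Type*} [AddCommGroup C] [Module Ω C]
  {ψ : C →ₗ[Ω] C →ₗ[Ω] Ω} {d : ℤ → Module.End Ω C}
  {L : Module.End Ω C} {G : ℤ → ℤ → Submodule Ω C}

/-- The form `ψ (x, L ^ m y)`. -/
noncomputable def frm (ψ : C →ₗ[Ω] C →ₗ[Ω] Ω) (L : Module.End Ω C) (m : ℕ) :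
    C →ₗ[Ω] C →ₗ[Ω] Ω := ψ.compl₂ (L ^ m)

lemma frm_apply (ψ : C →ₗ[Ω] C →ₗ[Ω] Ω) (L : Module.End Ω C) (m : ℕ) (x y : C) :
    frm ψ L m x y = ψ x ((L ^ m) y) := rfl

lemma perf_prim (h : LefDual ψ d L G G) (hG : LefComplex d L G) (i : ℤ) (m : ℕ) :
    Perf (frm ψ L m) (Pr L G i m) (Pr L G i m) := by
  constructor
  · intro x hx h0
    apply (h.perf i (-m)).left x hx.1
    intro y hy
    obtain ⟨y0, hy0, rfl⟩ := hG.lefSurj (-i) m y (LefComplex.mem_cast _ _ _ _ rfl (by ring) hy)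
    rw [hG.neg] at hy0
    obtain ⟨p, hp, w, hw, rfl⟩ := hG.prim_decomp i m hy0
    have e1 : ψ x ((L ^ m) p) = 0 := h0 p hp
    have e2 : ψ x ((L ^ m) (L w)) = 0 := by
      have hw' : w ∈ G (-i) (-(-(m : ℤ)) - 2 * ((m + 1 : ℕ) : ℤ)) := by
        rw [hG.neg]
        exact LefComplex.mem_cast _ _ _ _ rfl (by push_cast; ring) hw
      rw [← Module.End.mul_apply, ← pow_succ, ← h.adj_Lpow hG hG i (-m) (m + 1) hx.1 hw',
        show (L ^ (m + 1)) x = 0 from hx.2, map_zero, LinearMap.zero_apply]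
    rw [map_add, map_add, e1, e2, add_zero]
  · intro y hy h0
    have hy2 : (L ^ m) y ∈ G (-i) (-(-(m : ℤ))) := by
      rw [hG.neg]
      exact LefComplex.mem_cast _ _ _ _ rfl (by ring) (hG.Lpow_mem m hy.1)
    apply hG.lefInj i m y hy.1
    apply (h.perf i (-m)).right _ hy2
    intro x hx
    obtain ⟨p, hp, w, hw, rfl⟩ := hG.prim_decomp i m hx
    have e1 : ψ p ((L ^ m) y) = 0 := h0 p hp
    have e2 : ψ (L w) ((L ^ m) y) = 0 := by
      rw [h.adj_L i (-m - 2) w _ hw (LefComplex.mem_cast _ _ _ _ rfl (by ring) hy2),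
        ← Module.End.mul_apply L (L ^ m) y, ← pow_succ', show (L ^ (m + 1)) y = 0 from hy.2,
        map_zero]
    rw [map_add, LinearMap.add_apply, e1, e2, add_zero]

/-- A nonzero common generalized eigenvector of two inverse operators. -/
lemma inv_of_wt {S S' : Module.End Ω C} (hc : Commute S S') (hS : ∀ x, S' (S x) = x) {μ μ' : Ω}
    {x : C} (hx0 : x ≠ 0) (hx : ∃ k : ℕ, ((S - μ • (1 : Module.End Ω C)) ^ k) x = 0)
    (hx' : ∃ k : ℕ, ((S' - μ' • (1 : Module.End Ω C)) ^ k) x = 0) : μ * μ' = 1 := by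
  classical
  have hk := Nat.find_spec hx
  have hpos : 0 < Nat.find hx := by
    rw [Nat.pos_iff_ne_zero]
    intro h0
    rw [h0, pow_zero] at hk
    exact hx0 hk
  obtain ⟨k, hk'⟩ : ∃ k, Nat.find hx = k + 1 := ⟨Nat.find hx - 1, by omega⟩
  rw [hk', pow_succ', Module.End.mul_apply] at hk
  have hy0 : ((S - μ • (1 : Module.End Ω C)) ^ k) x ≠ 0 := Nat.find_min hx (by omega)
  set y := ((S - μ • (1 : Module.End Ω C)) ^ k) x with hy
  have h1 : S y = μ • y := by
    have : S y - μ • y = 0 := hk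
    exact sub_eq_zero.1 this
  have h2 : y = μ • S' y := by
    conv_lhs => rw [← hS y, h1, map_smul]
  obtain ⟨l, hl⟩ := hx'
  have hcomm : Commute ((S' - μ' • (1 : Module.End Ω C)) ^ l)
      ((S - μ • (1 : Module.End Ω C)) ^ k) := by
    apply Commute.pow_pow
    apply Commute.sub_left
    · apply Commute.sub_right hc.symm
      exact (Commute.one_right S').smul_right μ
    · exact (Commute.one_left _).smul_left μ'
  have h3 : ((S' - μ' • (1 : Module.End Ω C)) ^ l) y = 0 := by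
    rw [hy, ← Module.End.mul_apply, hcomm.eq, Module.End.mul_apply, hl, map_zero]
  have h4 : ∀ l : ℕ, μ ^ l • ((S' - μ' • (1 : Module.End Ω C)) ^ l) y = (1 - μ * μ') ^ l • y := by
    intro l
    induction l with
    | zero => simp
    | succ l ih =>
      rw [pow_succ', pow_succ' (S' - μ' • (1 : Module.End Ω C)), Module.End.mul_apply, mul_smul,
        ← map_smul, ih, map_smul, smul_comm]
      have : μ • (S' - μ' • (1 : Module.End Ω C)) y = (1 - μ * μ') • y := by
        rw [LinearMap.sub_apply, smul_sub, ← h2, LinearMap.smul_apply, Module.End.one_apply,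
          smul_smul, sub_smul, one_smul]
      rw [this, smul_smul, ← pow_succ]
  have h5 := h4 l
  rw [h3, smul_zero] at h5
  rcases smul_eq_zero.1 h5.symm with h6 | h6
  · by_cases hl0 : l = 0
    · subst hl0
      simp at h6
    · have h7 : 1 - μ * μ' = 0 := by
        rwa [pow_eq_zero_iff hl0] at h6
      exact (sub_eq_zero.1 h7).symm
  · exact absurd h6 hy0

end Abstract

end Pool.Agent.R942.WB
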