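import Pool.Agent.R942.WS.Tate
import Pool.Agent.R942.WB.Core
import Pool.Agent.R942.WB.Defs

/-!
# The first open diagonal, up to a given column
-/

set_option autoImplicit false

namespace Pool.Agent.R942.WB

open Module Submodule Pool.Agent.Y143 Pool.Agent.Y143.LefDual Pool.Agent.R942.WS

section Abstract

variable {Ω : Type*} [Field Ω] {C : Type*} [AddCommGroup C] [Module Ω C]
  [FiniteDimensional Ω C] {ψ : C →ₗ[Ω] C →ₗ[Ω] Ω} {d : ℤ → Module.End Ω C}
  {L : Module.End Ω C} {G G' : ℤ → ℤ → Submodule Ω C}

lemma step_at (h : LefDual ψ d L G G') (hG : LefComplex d L G) (hG' : LefComplex d L G')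
    (i j : ℤ) (ih : ∀ i' j' : ℤ, j' - i' < j - i → Diag d G G' i' j')
    (ih2 : Diag d G G' (i - 1) (j - 1))
    (hT : 1 ≤ i → ∀ m : ℕ, j = -m → Fine d L G i m ∧ Fine d L G' i m) : Diag d G G' i j := by
  have k1 := h.kk_eq hG' i j
  have k2 := hh_eq d G i j
  have k3 := hh_eq d G' i j
  have k4 := ih2.rk
  rcases lt_trichotomy i 0 with hi | hi | hi
  · have a1 := ih (-i) j (by omega)
    have a2 := ih (-i - 1) (j - 1) (by omega)
    have b1 := h.kk_eq hG' (-i) j
    have b2 := hh_eq d G (-i) j
    have b3 := hh_eq d G' (-i) j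
    have c1 := h.hh_neg hG hG' (-i) j
    have c2 := h.flip.hh_neg hG' hG (-i) j
    rw [neg_neg] at c1 c2
    have d1 := a1.rk
    have d2 := a2.rk
    exact ⟨by omega, fun h => by omega⟩
  · subst hi
    have c1 := h.hh_neg hG hG' 0 j
    rw [neg_zero] at c1
    exact ⟨by omega, fun h => by omega⟩
  · have hg : Good2 d G G' i j := by
      rcases lt_or_ge 0 j with hj | hj
      · obtain ⟨m, rfl⟩ := Int.eq_ofNat_of_zero_le hj.le
        exact h.good_pos hG hG' i hi m ((ih i (-m) (by omega)).good hi)
      · obtain ⟨m, hm⟩ := Int.eq_ofNat_of_zero_le (show 0 ≤ -j by omega)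
        obtain rfl : j = -m := by omega
        have g2 := (ih i (-((m + 2 : ℕ) : ℤ)) (by push_cast; omega)).good hi
        have g3 := h.good_pos hG hG' i hi _ g2
        have g4 := (ih i (-m - 2) (by omega)).rk
        have hm2 : ((m + 2 : ℕ) : ℤ) = (m : ℤ) + 2 := by push_cast; ring
        have hI : NInj d G i ((m : ℤ) + 2) := by rw [← hm2]; exact g3.inj
        have hI' : NInj d G' i ((m : ℤ) + 2) := by rw [← hm2]; exact g3.inj'
        have hTT := hT hi m rfl
        exact core2' h hG hG' i hi m hI hI' k4 g4 hTT.1 hTT.2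
    exact ⟨by have := hg.hh; omega, fun _ => hg⟩

/-- If the lower diagonals are fine, and the places of the diagonal `D` in the columns up to `I` are
fine, then `N ^ i` is an isomorphism on cohomology at these places. -/
theorem main_upto (h : LefDual ψ d L G G') (hG : LefComplex d L G) (hG' : LefComplex d L G')
    {D I : ℤ} (hlow : ∀ i j : ℤ, j - i < D → Diag d G G' i j)
    (hT : ∀ i : ℤ, 1 ≤ i → i ≤ I → ∀ m : ℕ, -(m : ℤ) - i = D → Fine d L G i m ∧ Fine d L G' i m)
    (i j : ℤ) (hD : j - i = D) (hI : i ≤ I) : Diag d G G' i j := by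
  obtain ⟨B, hB0, hB⟩ := hG.bdd
  obtain ⟨B', hB0', hB'⟩ := hG'.bdd
  have inner : ∀ M : ℕ, ∀ i' j' : ℤ, j' - i' = D → i' ≤ I → i' < -(B + B') + M →
      Diag d G G' i' j' := by
    intro M
    induction M with
    | zero =>
      intro i' j' hd _ hi'
      have hlt : i' < -(B + B') := by simpa using hi'
      have habs : B + B' < |i'| := by
        rw [abs_of_nonpos (by omega)]
        omega
      have g1 : G i' j' = ⊥ := hB _ _ (Or.inl (by omega))
      have g2 : G' i' j' = ⊥ := hB' _ _ (Or.inl (by omega))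
      exact ⟨by rw [LefDual.rk_bot g1, LefDual.rk_bot g2], fun h => by omega⟩
    | succ M ihM =>
      intro i' j' hd hI' hi'
      apply step_at h hG hG' i' j'
      · intro i'' j'' hlt
        exact hlow _ _ (by omega)
      · apply ihM
        · omega
        · omega
        · push_cast at hi'
          omega
      · intro h1 m hm
        exact hT i' h1 hI' m (by omega)
  exact inner (i + (B + B') + 1).toNat i j hD hI (by omega)

end Abstract

end Pool.Agent.R942.WB
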